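import Pool.Agent.J6H88.GC.Abs

/-!
# Polynomial families in tracial algebras: hyperinvariant subspaces for almost every value of the parameters

Let `N` be a unital *-algebra of bounded operators on a separable Hilbert space `H` and `v` a cyclic unit vector
whose vector state `τ(a) = ⟨v, a v⟩` is a trace on `N`: a factor of type II_1 (or any finite von Neumann algebra
with a faithful normal trace and separable predual) in standard form, the GNS representation of a separable
C*-algebra with a tracial state, the von Neumann algebra of a countable group.  Let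
`X(z) = ∑ i, p_i(z) c_i` be a polynomial in `d` complex variables with coefficients `c_i ∈ N`.  Suppose that at
one point `z₀ ∈ ℂ^d` the Fuglede-Kadison determinant of `X(z₀) - τ(X(z₀))` is positive: the numbers
`τ(log (δ + |X(z₀) - τ(X(z₀))|²))`, `δ > 0`, are bounded from below (for example, this operator is invertible).
Then for almost every `z ∈ ℂ^d`, and also for almost every `z ∈ ℝ^d`, the operator `X(z)` has a closed
subspace, neither `{0}` nor `H`, which is invariant under all bounded operators commuting with `X(z)`.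

Example: `X, Y ∈ N` with `Y - τ(Y)` invertible, or only of positive determinant (for instance a unitary of trace
zero, such as an element `≠ 1` of a group).  Then `X + z Y` has a nontrivial hyperinvariant subspace for almost
every complex and for almost every real coupling constant `z`.  (If `Y - τ(Y)` is invertible take `z₀` large; in
general take the family `z₁ X + z₂ Y` and `z₀ = (0, 1)`.)
Nothing is assumed on `X`: so every element of a factor of type II_1 becomes an operator with hyperinvariant
subspaces by adding almost any multiple of a fixed operator `Y`.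

The known theorem of Haagerup and Schultz gives invariant subspaces for operators of a factor of type II_1
whose Brown measure is not concentrated at one point.  For a given operator it can be difficult to decide
this; there are operators for which it is a point mass.  The earlier results on generic coupling
constants (starting files) are about perturbations of finite rank, trace class or Schatten class.

Proof.  For a polynomial `p(w)` with coefficients in a tracial C*-algebra `A` the mean of
`τ log (δ + |p(w)|²)` over the unit circle is at least its value at `w = 0`: this is the monotonicity theorem for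
rotation invariant families (starting library, `W116.RO`), applied in the C*-algebra `C(𝕋, A)` to
`θ ↦ p(w e^{iθ})`.  So the positivity of the determinant at a point passes to almost every point of the
circles about it.  With the Cayley transform `t = -i (w - 1)/(w + 1)` and the homogeneous form of `p` it passes to
almost every point of every line of the complex plane, then to almost every point of `ℝ^d` and of `ℂ^d` by
Fubini's theorem for the lines through one good point; for `ℝ^d` one first goes from `z₀ = a + i b` to a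
real point `a + t b`.  The determinant of `(X(z) - τ)^k` is then positive with an exponential bound in `k`
(determinants are supermultiplicative, `J6H88.JO.ld_pow`), so the Brown measure of `X(z)` is not a point
mass, and the tracial method of the starting library (`W338.RO`, after Haagerup and Schultz) gives the
subspace.
-/

set_option autoImplicit false
open MeasureTheory
open scoped InnerProductSpace

namespace Pool.Agent.J6H88.HypAE.AlmostEveryCoupling

/-- `v` is a cyclic unit vector for the *-algebra `N`, and `a ↦ ⟨v, a v⟩` is a trace on `N` -/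
structure TraceVector {H : Type} [NormedAddCommGroup H] [InnerProductSpace ℂ H] [CompleteSpace H]
    (N : StarSubalgebra ℂ (H →L[ℂ] H)) (v : H) : Prop where
  norm : ‖v‖ = 1
  trace : ∀ a ∈ N, ∀ b ∈ N, ⟪v, (a * b) v⟫_ℂ = ⟪v, (b * a) v⟫_ℂ
  cyclic : ∀ x : H, (∀ a ∈ N, ⟪x, a v⟫_ℂ = 0) → x = 0

/-- the Fuglede-Kadison determinant of `S` with respect to the trace `⟨v, . v⟩` is positive:
`⟨v, log (δ + S* S) v⟩` is bounded from below for `δ > 0` -/
def PositiveDeterminant {H : Type} [NormedAddCommGroup H] [InnerProductSpace ℂ H] [CompleteSpace H]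
    (v : H) (S : H →L[ℂ] H) : Prop :=
  ∃ C : ℝ, ∀ δ : ℝ, 0 < δ → C ≤ (⟪v, CFC.log ((δ : ℂ) • (1 : H →L[ℂ] H) + star S * S) v⟫_ℂ).re

/-- the operator `∑ i, p_i(z) c_i` -/
noncomputable def family {H : Type} [NormedAddCommGroup H] [InnerProductSpace ℂ H] {ι : Type}
    [Fintype ι] {d : ℕ} (p : ι → MvPolynomial (Fin d) ℂ) (c : ι → (H →L[ℂ] H)) (z : Fin d → ℂ) :
    H →L[ℂ] H := ∑ i, MvPolynomial.eval z (p i) • c i

/-- `T` has a closed subspace, neither `{0}` nor the whole space, which is invariant under every bounded
operator commuting with `T` -/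
def HasHyperinvariantSubspace {H : Type} [NormedAddCommGroup H] [NormedSpace ℂ H] (T : H →L[ℂ] H) :
    Prop :=
  ∃ V : Submodule ℂ H, IsClosed (V : Set H) ∧ V ≠ ⊥ ∧ V ≠ ⊤ ∧
    ∀ Q : H →L[ℂ] H, Q * T = T * Q → ∀ x ∈ V, Q x ∈ V

theorem main (H : Type) [NormedAddCommGroup H] [InnerProductSpace ℂ H] [CompleteSpace H]
    [TopologicalSpace.SeparableSpace H] (N : StarSubalgebra ℂ (H →L[ℂ] H)) (v : H)
    (hN : TraceVector N v) (ι : Type) [Fintype ι] (d : ℕ) (p : ι → MvPolynomial (Fin d) ℂ)
    (c : ι → (H →L[ℂ] H)) (hc : ∀ i, c i ∈ N) (z₀ : Fin d → ℂ)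
    (hz₀ : PositiveDeterminant v (family p c z₀ - ⟪v, family p c z₀ v⟫_ℂ • (1 : H →L[ℂ] H))) :
    (∀ᵐ z : Fin d → ℂ, HasHyperinvariantSubspace (family p c z)) ∧
      ∀ᵐ x : Fin d → ℝ, HasHyperinvariantSubspace (family p c fun j => (x j : ℂ)) := by
  have htr := Pool.Agent.J6H88.GC.vst_tr N v hN.norm hN.trace
  set τ := Pool.Agent.J6H88.GC.vst N v with hτ
  -- the coefficients as elements of the closure
  set c' : ι → Pool.Agent.J6H88.GC.Cl N := fun i =>
    ⟨c i, StarSubalgebra.le_topologicalClosure _ (hc i)⟩ with hc'
  set c0 : ι → Pool.Agent.J6H88.GC.Cl N := fun i =>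
    c' i - τ (c' i) • (1 : Pool.Agent.J6H88.GC.Cl N) with hc0
  have hfam : ∀ z, ((Pool.Agent.J6H88.GC.mv p c' z : Pool.Agent.J6H88.GC.Cl N) : H →L[ℂ] H)
      = family p c z := by
    intro z
    have h1 : Pool.Agent.J6H88.GC.inc N (Pool.Agent.J6H88.GC.mv p c' z)
        = ∑ i, MvPolynomial.eval z (p i) • Pool.Agent.J6H88.GC.inc N (c' i) := by
      unfold Pool.Agent.J6H88.GC.mv
      rw [map_sum]
      exact Finset.sum_congr rfl fun i _ => map_smul _ _ _
    exact h1
  have hshift : ∀ z, Pool.Agent.J6H88.GC.mv p c0 z = Pool.Agent.J6H88.GC.mv p c' z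
      - τ (Pool.Agent.J6H88.GC.mv p c' z) • (1 : Pool.Agent.J6H88.GC.Cl N) := by
    intro z
    unfold Pool.Agent.J6H88.GC.mv
    rw [map_sum, Finset.sum_smul, ← Finset.sum_sub_distrib]
    refine Finset.sum_congr rfl fun i _ => ?_
    rw [hc0, map_smul, smul_sub, smul_assoc]
  have hpos : Pool.Agent.J6H88.GC.Pos τ (Pool.Agent.J6H88.GC.mv p c0 z₀) := by
    obtain ⟨C, hC⟩ := hz₀
    refine ⟨C, fun δ hδ => ?_⟩
    have h1 := hC δ hδ
    unfold Pool.Agent.J6H88.JO.ld
    rw [hτ, Pool.Agent.J6H88.GC.vst_apply, Pool.Agent.J6H88.GC.log_cl N _ δ hδ]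
    have h2 : ((Pool.Agent.J6H88.GC.mv p c0 z₀ : Pool.Agent.J6H88.GC.Cl N) : H →L[ℂ] H)
        = family p c z₀ - ⟪v, family p c z₀ v⟫_ℂ • (1 : H →L[ℂ] H) := by
      rw [hshift]
      have h3 : τ (Pool.Agent.J6H88.GC.mv p c' z₀) = ⟪v, family p c z₀ v⟫_ℂ := by
        rw [hτ, Pool.Agent.J6H88.GC.vst_apply, hfam]
      rw [h3, ← hfam]
      rfl
    have h4 : algebraMap ℝ (H →L[ℂ] H) δ = (δ : ℂ) • (1 : H →L[ℂ] H) := by
      rw [Algebra.algebraMap_eq_smul_one, Complex.coe_smul]
    rw [h2, h4]
    exact h1
  have hyp : ∀ z, Pool.Agent.J6H88.GC.Pos τ (Pool.Agent.J6H88.GC.mv p c0 z) →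
      HasHyperinvariantSubspace (family p c z) := by
    intro z hz
    rw [hshift] at hz
    have h1 := Pool.Agent.J6H88.GC.hyp_bh N v hN.norm hN.trace hN.cyclic _ hz
    rw [hfam] at h1
    exact h1
  constructor
  · filter_upwards [Pool.Agent.J6H88.GC.mv_complex τ htr p c0 z₀ hpos] with z hz
    exact hyp z hz
  · filter_upwards [Pool.Agent.J6H88.GC.mv_real τ htr p c0 z₀ hpos] with x hx
    exact hyp _ hx

theorem almost_every_coupling :
    ∀ (H : Type) [NormedAddCommGroup H] [InnerProductSpace ℂ H] [CompleteSpace H]
      [TopologicalSpace.SeparableSpace H] (N : StarSubalgebra ℂ (H →L[ℂ] H)) (v : H), TraceVector N v →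
      ∀ (ι : Type) [Fintype ι] (d : ℕ) (p : ι → MvPolynomial (Fin d) ℂ) (c : ι → (H →L[ℂ] H)),
      (∀ i, c i ∈ N) → ∀ z₀ : Fin d → ℂ,
      PositiveDeterminant v (family p c z₀ - ⟪v, family p c z₀ v⟫_ℂ • (1 : H →L[ℂ] H)) →
      (∀ᵐ z : Fin d → ℂ, HasHyperinvariantSubspace (family p c z)) ∧
        ∀ᵐ x : Fin d → ℝ, HasHyperinvariantSubspace (family p c fun j => (x j : ℂ)) :=
  fun H _ _ _ _ N v hN ι _ d p c hc z₀ hz₀ => main H N v hN ι d p c hc z₀ hz₀

end Pool.Agent.J6H88.HypAE.AlmostEveryCoupling
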